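import Mathlib
import Pool.Agent.H82.SZ2.Defs

/-!
# MP_103a5c SimpleZeros v2, block JA: decay of `fz` in the strip `-1 ≤ Re w ≤ 2`
-/

set_option autoImplicit false

open Complex MeasureTheory Filter Topology Set

namespace Pool.Agent.H53.SZ2

open H82SZ Pool.Agent.H17.ZB Pool.Agent.H53.SZC

theorem Z_exp2 : ∃ C : ℝ, 0 ≤ C ∧ ∀ s : ℂ, -1 ≤ s.re → s.re ≤ 4 → ‖Z s‖ ≤ C * Real.exp (2 * |s.im|) := by
  obtain ⟨C, hC, h⟩ := Z_exp
  obtain ⟨D, hD, h'⟩ := Z_poly
  refine ⟨C + D, by positivity, fun s h1 h2 => ?_⟩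
  have hE : 0 ≤ Real.exp (2 * |s.im|) := Real.exp_nonneg _
  rcases le_or_gt s.re 2 with h3 | h3
  · have h4 := h s h1 h3
    nlinarith [mul_nonneg hD hE]
  · have h4 := h' s (by linarith) h2
    have h5 : (1 + |s.im|) ^ 2 ≤ Real.exp (2 * |s.im|) := by
      have h6 := Real.add_one_le_exp |s.im|
      have h7 : Real.exp (2 * |s.im|) = Real.exp |s.im| ^ 2 := by
        rw [← Real.exp_nat_mul]
        norm_num
      rw [h7]
      exact pow_le_pow_left₀ (by positivity) (by linarith) 2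
    have h8 := mul_le_mul_of_nonneg_left h5 hD
    nlinarith [mul_nonneg hC hE]

private theorem SZ2JA_poly (t : ℝ) : (1 + t ^ 2) ^ 3 ≤ 5832 * Real.exp |t| := by
  have h1 := Real.quadratic_le_exp_of_nonneg (x := |t| / 3) (by positivity)
  have h2 : |t| ^ 2 = t ^ 2 := sq_abs t
  have h3 : 1 + t ^ 2 ≤ 18 * Real.exp (|t| / 3) := by
    have h4 := abs_nonneg t
    nlinarith
  have h5 : (1 + t ^ 2) ^ 3 ≤ (18 * Real.exp (|t| / 3)) ^ 3 :=
    pow_le_pow_left₀ (by positivity) h3 3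
  have h6 : (18 * Real.exp (|t| / 3)) ^ 3 = 5832 * Real.exp |t| := by
    rw [mul_pow, ← Real.exp_nat_mul]
    have h7 : ((3 : ℕ) : ℝ) * (|t| / 3) = |t| := by
      push_cast
      ring
    rw [h7]
    norm_num
  rw [h6] at h5
  exact h5

private theorem SZ2JA_exp {κ t T : ℝ} (hκ : 0 < κ) :
    3 * |t| - κ * (t - T) ^ 2 ≤ 3 * |T| + 9 / (4 * κ) := by
  have h1 : |t| ≤ |t - T| + |T| := by
    have h2 := abs_add_le (t - T) T
    rwa [sub_add_cancel] at h2
  have h3 : |t - T| ^ 2 = (t - T) ^ 2 := sq_abs _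
  have h4 : 0 ≤ κ * (|t - T| - 3 / (2 * κ)) ^ 2 := by positivity
  have h5 : κ * (|t - T| - 3 / (2 * κ)) ^ 2 =
      κ * (t - T) ^ 2 - 3 * |t - T| + 9 / (4 * κ) := by
    rw [← h3]
    field_simp
    ring
  rw [h5] at h4
  linarith

/-- norm of the Gaussian factor of `fz` -/
theorem gf_norm (T : ℝ) (w : ℂ) :
    ‖Complex.exp ((w - T * Complex.I) ^ 2 * (Real.log T : ℂ) / (2 * (T : ℂ) ^ 2))‖ =
      Real.exp ((w.re ^ 2 - (w.im - T) ^ 2) * Real.log T / (2 * T ^ 2)) := by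
  rw [Complex.norm_exp]
  congr 1
  have h : ((w - (T : ℂ) * I) ^ 2 * (Real.log T : ℂ) / (2 * (T : ℂ) ^ 2)) =
      (((Real.log T / (2 * T ^ 2) : ℝ)) : ℂ) * (w - T * I) ^ 2 := by
    push_cast; ring
  rw [h, Complex.re_ofReal_mul, pow_two (w - T * I)]
  simp
  ring

theorem ja : JAstat := by
  intro P T hT
  obtain ⟨C, hC, hA⟩ := dpol_strip (T := T) (xk P T)
  obtain ⟨D, hD, hZ⟩ := Z_exp2
  have hL : 0 < Real.log T := Real.log_pos hT
  have hT0 : 0 < T := by linarith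
  obtain ⟨κ, hκ⟩ : ∃ κ, κ = Real.log T / (2 * T ^ 2) := ⟨_, rfl⟩
  have hκ0 : 0 < κ := by
    rw [hκ]
    positivity
  have r1 : ∀ w : ℂ, ((1 / 2 : ℂ) + w).re = 1 / 2 + w.re := fun w => by simp
  have r2 : ∀ w : ℂ, ((1 / 2 : ℂ) + w).im = w.im := fun w => by simp
  have r3 : ∀ w : ℂ, ((3 / 2 : ℂ) + w).re = 3 / 2 + w.re := fun w => by simp
  refine ⟨Real.exp (4 * κ + (3 * |T| + 9 / (4 * κ))) * (2 * D * C * 5832), fun w h1 h2 => ?_,
    fun w h1 h2 => ?_⟩
  · have hne : (3 / 2 : ℂ) + w ≠ 0 := by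
      intro h0
      have h3 := r3 w
      rw [h0, Complex.zero_re] at h3
      linarith
    have hdp : Differentiable ℂ fun w : ℂ => dpol T (xk P T) (1 / 2 + w) := by
      unfold dpol
      refine Differentiable.fun_sum fun n hn => ?_
      have hn1 : 1 ≤ n := (Finset.mem_Icc.1 hn).1
      refine (differentiable_const _).mul (Differentiable.const_cpow (by fun_prop) (Or.inl ?_))
      exact_mod_cast (by omega : n ≠ 0)
    have hZd : DifferentiableAt ℂ (fun w : ℂ => Z (1 / 2 + w)) w :=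
      (Z_differentiable (1 / 2 + w)).comp w (by fun_prop)
    have hq : DifferentiableAt ℂ (fun w : ℂ => Z (1 / 2 + w) / (3 / 2 + w)) w :=
      hZd.div (by fun_prop) hne
    exact (hq.mul (hdp w)).mul (by fun_prop)
  · have hx : w.re ^ 2 ≤ 4 := by nlinarith
    have g1 : ‖Complex.exp ((w - T * Complex.I) ^ 2 * (Real.log T : ℂ) / (2 * (T : ℂ) ^ 2))‖ ≤
        Real.exp (4 * κ - κ * (w.im - T) ^ 2) := by
      rw [gf_norm]
      apply Real.exp_le_exp.2
      have h3 : (w.re ^ 2 - (w.im - T) ^ 2) * Real.log T / (2 * T ^ 2) =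
          κ * w.re ^ 2 - κ * (w.im - T) ^ 2 := by
        rw [hκ]
        ring
      rw [h3]
      have h4 : κ * w.re ^ 2 ≤ κ * 4 := mul_le_mul_of_nonneg_left hx hκ0.le
      linarith
    have g2 : ‖Z (1 / 2 + w)‖ ≤ D * Real.exp (2 * |w.im|) := by
      have h3 := hZ (1 / 2 + w) (by rw [r1]; linarith) (by rw [r1]; linarith)
      rwa [r2] at h3
    have g3 : ‖dpol T (xk P T) (1 / 2 + w)‖ ≤ C := hA (1 / 2 + w) (by rw [r1]; linarith)
    have g4 : 1 / 2 ≤ ‖(3 / 2 : ℂ) + w‖ := by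
      have h3 := Complex.re_le_norm ((3 / 2 : ℂ) + w)
      rw [r3] at h3
      linarith
    have g5 : ‖Z (1 / 2 + w) / (3 / 2 + w)‖ ≤ 2 * D * Real.exp (2 * |w.im|) := by
      rw [norm_div, div_le_iff₀ (by linarith)]
      have h3 : 0 ≤ D * Real.exp (2 * |w.im|) := by positivity
      nlinarith
    have hp := SZ2JA_poly w.im
    have hpos : 0 < (1 + w.im ^ 2) ^ 3 := by positivity
    rw [le_div_iff₀ hpos]
    have hmain : ‖fz P T w‖ ≤ (2 * D * Real.exp (2 * |w.im|)) * C *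
        Real.exp (4 * κ - κ * (w.im - T) ^ 2) := by
      unfold fz
      rw [norm_mul, norm_mul]
      refine mul_le_mul (mul_le_mul g5 g3 (norm_nonneg _) (by positivity)) g1
        (norm_nonneg _) (by positivity)
    calc ‖fz P T w‖ * (1 + w.im ^ 2) ^ 3 ≤
        ((2 * D * Real.exp (2 * |w.im|)) * C * Real.exp (4 * κ - κ * (w.im - T) ^ 2)) *
          (5832 * Real.exp |w.im|) :=
          mul_le_mul hmain hp hpos.le (by positivity)
      _ = Real.exp (4 * κ + (3 * |w.im| - κ * (w.im - T) ^ 2)) * (2 * D * C * 5832) := by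
          have h5 : 4 * κ + (3 * |w.im| - κ * (w.im - T) ^ 2) =
              (4 * κ - κ * (w.im - T) ^ 2) + (2 * |w.im| + |w.im|) := by ring
          rw [h5, Real.exp_add (4 * κ - κ * (w.im - T) ^ 2), Real.exp_add (2 * |w.im|) |w.im|]
          ring
      _ ≤ Real.exp (4 * κ + (3 * |T| + 9 / (4 * κ))) * (2 * D * C * 5832) := by
          refine mul_le_mul_of_nonneg_right (Real.exp_le_exp.2 ?_) (by positivity)
          have h6 := SZ2JA_exp (t := w.im) (T := T) hκ0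
          linarith

end Pool.Agent.H53.SZ2
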