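import Mathlib
import Pool.Agent.H53.SZ2.JA

/-!
# MP_103a5c SimpleZeros v2, block I1, part a: the analytic function `hz` (mean square of `ζ M`)

`hz w = G(s) E(w) (ζM)(s) (ζM)(1-s)`, `s = 1/2 + w`, `E(w) = 1 - exp (-(w² - 1/4)⁴)`.
-/

set_option autoImplicit false

open Complex MeasureTheory Filter Topology Set

namespace Pool.Agent.H53.SZ2

open H82SZ Pool.Agent.H17.ZB Pool.Agent.H53.SZC

/-- `(s - 1) ζ(s) M(s)`, entire -/
noncomputable def Am (P : ℝ → ℝ) (T : ℝ) (s : ℂ) : ℂ := Z s * dpol T (xk P T) s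

/-- `G(s) E(w) (ζM)(s) (ζM)(1-s)`, entire -/
noncomputable def hz (P : ℝ → ℝ) (T : ℝ) (w : ℂ) : ℂ :=
  Gs T (1 / 2 + w) * (Am P T (1 / 2 + w) * Am P T (1 / 2 - w)) * (-(zz w ^ 3 * psi (zz w ^ 4)))

variable {P : ℝ → ℝ} {T : ℝ}

theorem Am_eq {s : ℂ} (hs : s ≠ 1) : Am P T s = (s - 1) * ZM P T s := by
  unfold Am ZM
  rw [Z_of_ne hs]
  ring

theorem Am_differentiable : Differentiable ℂ (Am P T) := by
  unfold Am
  exact Z_differentiable.mul (dpol_differentiable _)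

theorem Am_conj (s : ℂ) : Am P T ((starRingEnd ℂ) s) = (starRingEnd ℂ) (Am P T s) := by
  unfold Am
  rw [dpol_conj, Z_conj, map_mul]

theorem ZM_conj {s : ℂ} (hs : s ≠ 1) : ZM P T ((starRingEnd ℂ) s) = (starRingEnd ℂ) (ZM P T s) := by
  have hs' : (starRingEnd ℂ) s ≠ 1 := by
    intro h
    apply hs
    have := congrArg (starRingEnd ℂ) h
    simpa using this
  have h1 := Am_conj (P := P) (T := T) s
  rw [Am_eq hs, Am_eq hs', map_mul, map_sub, map_one] at h1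
  exact mul_left_cancel₀ (sub_ne_zero.mpr hs') h1

theorem hz_differentiable : Differentiable ℂ (hz P T) := by
  unfold hz
  have h1 : Differentiable ℂ (fun w : ℂ => Gs T (1 / 2 + w)) := by unfold Gs; fun_prop
  have h2 : Differentiable ℂ (fun w : ℂ => Am P T (1 / 2 + w)) :=
    Am_differentiable.comp (by fun_prop : Differentiable ℂ (fun w : ℂ => 1 / 2 + w))
  have h3 : Differentiable ℂ (fun w : ℂ => Am P T (1 / 2 - w)) :=
    Am_differentiable.comp (by fun_prop : Differentiable ℂ (fun w : ℂ => 1 / 2 - w))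
  have h4 : Differentiable ℂ zz := by unfold zz; fun_prop
  have h5 : Differentiable ℂ (fun w : ℂ => psi (zz w ^ 4)) := psi_differentiable.comp (h4.pow 4)
  exact (h1.mul (h2.mul h3)).mul ((h4.pow 3).mul h5).neg

theorem hz_eq {w : ℂ} (h1 : w ≠ 1 / 2) (h2 : w ≠ -(1 / 2)) :
    hz P T w = Gs T (1 / 2 + w) * Ee w * (ZM P T (1 / 2 + w) * ZM P T (1 / 2 - w)) := by
  have h3 : (1 / 2 + w : ℂ) ≠ 1 := by
    intro h
    apply h1
    linear_combination h
  have h4 : (1 / 2 - w : ℂ) ≠ 1 := by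
    intro h
    apply h2
    linear_combination -h
  have h5 := psi_mul (zz w ^ 4)
  unfold hz Ee
  rw [Am_eq h3, Am_eq h4, ← h5]
  unfold zz
  ring

theorem hz_line (t : ℝ) : hz P T (t * I) =
    ((Pool.Agent.H26.SZ.Gw T t * (1 - Real.exp (-((t ^ 2 + 1 / 4) ^ 4))) * ‖ZM P T (1 / 2 + t * I)‖ ^ 2 : ℝ) : ℂ) := by
  have h1 : ((t : ℂ) * I) ≠ 1 / 2 := by
    intro h
    have := congrArg Complex.re h
    norm_num at this
  have h2 : ((t : ℂ) * I) ≠ -(1 / 2) := by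
    intro h
    have := congrArg Complex.re h
    norm_num at this
  have h3 : (1 / 2 + (t : ℂ) * I) ≠ 1 := by
    intro h
    have := congrArg Complex.re h
    norm_num at this
  have h4 : Gs T (1 / 2 + t * I) = ((Pool.Agent.H26.SZ.Gw T t : ℝ) : ℂ) := by
    unfold Gs Pool.Agent.H26.SZ.Gw
    rw [Complex.ofReal_exp]
    congr 1
    push_cast
    linear_combination (((t : ℂ) - T) ^ 2 * (Real.log T : ℂ) / (T : ℂ) ^ 2) * Complex.I_sq
  have h5 : Ee (t * I) = ((1 - Real.exp (-((t ^ 2 + 1 / 4) ^ 4)) : ℝ) : ℂ) := by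
    unfold Ee zz
    push_cast
    congr 2
    have h6 : ((t : ℂ) * I) ^ 2 = -(t : ℂ) ^ 2 := by rw [mul_pow, Complex.I_sq]; ring
    rw [h6]
    ring
  have h6 : (1 / 2 - (t : ℂ) * I) = (starRingEnd ℂ) (1 / 2 + t * I) := by
    simp only [map_div₀, map_add, map_mul, map_one, map_ofNat, Complex.conj_ofReal, Complex.conj_I]
    ring
  rw [hz_eq h1 h2, h4, h5, h6, ZM_conj h3, Complex.mul_conj, Complex.normSq_eq_norm_sq]
  push_cast
  ring

theorem zpsi3_bd : ∃ C : ℝ, 0 ≤ C ∧ ∀ w : ℂ, |w.re| ≤ 1 → ‖zz w ^ 3 * psi (zz w ^ 4)‖ ≤ C := by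
  obtain ⟨C0, hC0⟩ := (isCompact_closedBall (0 : ℂ) 1).exists_bound_of_continuousOn
    (f := psi) psi_differentiable.continuous.continuousOn
  obtain ⟨C1, hC1, h1⟩ := Ee_bd
  refine ⟨|C0| + (1 + C1), by positivity, fun w hw => ?_⟩
  rcases le_or_gt ‖zz w‖ 1 with h2 | h2
  · have h3 : ‖zz w ^ 4‖ ≤ 1 := by
      rw [norm_pow]
      exact pow_le_one₀ (norm_nonneg _) h2
    have h4 : ‖zz w ^ 3‖ ≤ 1 := by
      rw [norm_pow]
      exact pow_le_one₀ (norm_nonneg _) h2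
    have h5 := hC0 (zz w ^ 4) (by rw [mem_closedBall_zero_iff]; exact h3)
    rw [norm_mul]
    have h6 : ‖zz w ^ 3‖ * ‖psi (zz w ^ 4)‖ ≤ 1 * C0 :=
      mul_le_mul h4 h5 (norm_nonneg _) zero_le_one
    have h7 := le_abs_self C0
    linarith
  · have hz0 : zz w ≠ 0 := by
      intro h0
      rw [h0, norm_zero] at h2
      linarith
    have h3 : zz w ^ 3 * psi (zz w ^ 4) = (1 - Complex.exp (-(zz w ^ 4))) / zz w := by
      rw [eq_div_iff hz0, ← psi_mul]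
      ring
    have h5 : ‖1 - Complex.exp (-(zz w ^ 4))‖ ≤ 1 + C1 := by
      refine (norm_sub_le _ _).trans ?_
      rw [norm_one]
      have h6 := h1 w hw
      have h7 : Real.exp (-(w.im ^ 4)) ≤ 1 := by
        rw [Real.exp_le_one_iff]
        have : 0 ≤ w.im ^ 4 := by positivity
        linarith
      have h8 : C1 * Real.exp (-(w.im ^ 4)) ≤ C1 * 1 := mul_le_mul_of_nonneg_left h7 hC1
      linarith
    rw [h3, norm_div]
    have h9 : ‖1 - Complex.exp (-(zz w ^ 4))‖ / ‖zz w‖ ≤ ‖1 - Complex.exp (-(zz w ^ 4))‖ :=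
      div_le_self (norm_nonneg _) h2.le
    have h10 := abs_nonneg C0
    linarith

private theorem SZ2I1_poly (t : ℝ) : (1 + t ^ 2) ^ 3 ≤ 5832 * Real.exp |t| := by
  have h1 := Real.quadratic_le_exp_of_nonneg (x := |t| / 3) (by positivity)
  have h2 : |t| ^ 2 = t ^ 2 := sq_abs t
  have h3 : 1 + t ^ 2 ≤ 18 * Real.exp (|t| / 3) := by
    have h4 := abs_nonneg t
    nlinarith
  have h5 : (1 + t ^ 2) ^ 3 ≤ (18 * Real.exp (|t| / 3)) ^ 3 :=
    pow_le_pow_left₀ (by positivity) h3 3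
  have h6 : (18 * Real.exp (|t| / 3)) ^ 3 = 5832 * Real.exp |t| := by
    rw [mul_pow, ← Real.exp_nat_mul]
    have h7 : ((3 : ℕ) : ℝ) * (|t| / 3) = |t| := by
      push_cast
      ring
    rw [h7]
    norm_num
  rw [h6] at h5
  exact h5

private theorem SZ2I1_exp {κ t T : ℝ} (hκ : 0 < κ) :
    5 * |t| - κ * (t - T) ^ 2 ≤ 5 * |T| + 25 / (4 * κ) := by
  have h1 : |t| ≤ |t - T| + |T| := by
    have h2 := abs_add_le (t - T) T
    rwa [sub_add_cancel] at h2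
  have h3 : |t - T| ^ 2 = (t - T) ^ 2 := sq_abs _
  have h4 : 0 ≤ κ * (|t - T| - 5 / (2 * κ)) ^ 2 := by positivity
  have h5 : κ * (|t - T| - 5 / (2 * κ)) ^ 2 =
      κ * (t - T) ^ 2 - 5 * |t - T| + 25 / (4 * κ) := by
    rw [← h3]
    field_simp
    ring
  rw [h5] at h4
  linarith

theorem Am_strip : ∃ C : ℝ, 0 ≤ C ∧ ∀ s : ℂ, -1 ≤ s.re → s.re ≤ 2 →
    ‖Am P T s‖ ≤ C * Real.exp (2 * |s.im|) := by
  obtain ⟨C, hC, hA⟩ := dpol_strip (T := T) (xk P T)
  obtain ⟨D, hD, hZ⟩ := Z_exp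
  refine ⟨D * C, by positivity, fun s h1 h2 => ?_⟩
  unfold Am
  rw [norm_mul]
  calc ‖Z s‖ * ‖dpol T (xk P T) s‖ ≤ (D * Real.exp (2 * |s.im|)) * C :=
        mul_le_mul (hZ s h1 h2) (hA s (by linarith)) (norm_nonneg _) (by positivity)
    _ = _ := by ring

theorem hz_SD (hT : 1 < T) : ∃ K : ℝ, SD 3 (-1) 1 K (hz P T) := by
  obtain ⟨C, hC, hA⟩ := Am_strip (P := P) (T := T)
  obtain ⟨C', hC', hz'⟩ := zpsi3_bd
  have hL : 0 < Real.log T := Real.log_pos hT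
  obtain ⟨κ, hκ⟩ : ∃ κ, κ = Real.log T / T ^ 2 := ⟨_, rfl⟩
  have hκ0 : 0 < κ := by
    rw [hκ]
    have : 0 < T := by linarith
    positivity
  refine ⟨Real.exp (κ + (5 * |T| + 25 / (4 * κ))) * (C ^ 2 * C' * 5832),
    fun w _ _ => hz_differentiable w, fun w h1 h2 => ?_⟩
  have hx : w.re ^ 2 ≤ 1 := by
    rw [sq_le_one_iff_abs_le_one, abs_le]
    exact ⟨h1, h2⟩
  have g1 : ‖Gs T (1 / 2 + w)‖ ≤ Real.exp (κ - κ * (w.im - T) ^ 2) := by
    rw [Gs_norm]
    apply Real.exp_le_exp.2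
    have h3 : (w.re ^ 2 - (w.im - T) ^ 2) * Real.log T / T ^ 2 =
        κ * w.re ^ 2 - κ * (w.im - T) ^ 2 := by
      rw [hκ]
      ring
    rw [h3]
    have h4 : κ * w.re ^ 2 ≤ κ * 1 := mul_le_mul_of_nonneg_left hx hκ0.le
    linarith
  have r1 : ((1 / 2 : ℂ) + w).re = 1 / 2 + w.re := by simp
  have r2 : ((1 / 2 : ℂ) + w).im = w.im := by simp
  have r3 : ((1 / 2 : ℂ) - w).re = 1 / 2 - w.re := by simp
  have r4 : ((1 / 2 : ℂ) - w).im = -w.im := by simp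
  have g2 : ‖Am P T (1 / 2 + w)‖ ≤ C * Real.exp (2 * |w.im|) := by
    have h3 := hA (1 / 2 + w) (by rw [r1]; linarith) (by rw [r1]; linarith)
    rwa [r2] at h3
  have g3 : ‖Am P T (1 / 2 - w)‖ ≤ C * Real.exp (2 * |w.im|) := by
    have h3 := hA (1 / 2 - w) (by rw [r3]; linarith) (by rw [r3]; linarith)
    rwa [r4, abs_neg] at h3
  have g4 : ‖-(zz w ^ 3 * psi (zz w ^ 4))‖ ≤ C' := by
    rw [norm_neg]
    exact hz' w (abs_le.2 ⟨h1, h2⟩)
  have hp := SZ2I1_poly w.im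
  have hpos : 0 < (1 + w.im ^ 2) ^ 3 := by positivity
  rw [le_div_iff₀ hpos]
  have hmain : ‖hz P T w‖ ≤ Real.exp (κ - κ * (w.im - T) ^ 2) *
      (C * Real.exp (2 * |w.im|) * (C * Real.exp (2 * |w.im|))) * C' := by
    unfold hz
    rw [norm_mul, norm_mul, norm_mul]
    refine mul_le_mul (mul_le_mul g1 ?_ (by positivity) (Real.exp_nonneg _)) g4
      (norm_nonneg _) (by positivity)
    exact mul_le_mul g2 g3 (norm_nonneg _) (by positivity)
  calc ‖hz P T w‖ * (1 + w.im ^ 2) ^ 3 ≤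
      (Real.exp (κ - κ * (w.im - T) ^ 2) *
        (C * Real.exp (2 * |w.im|) * (C * Real.exp (2 * |w.im|))) * C') *
        (5832 * Real.exp |w.im|) :=
        mul_le_mul hmain hp hpos.le (by positivity)
    _ = Real.exp (κ + (5 * |w.im| - κ * (w.im - T) ^ 2)) * (C ^ 2 * C' * 5832) := by
        have h5 : κ + (5 * |w.im| - κ * (w.im - T) ^ 2) =
            (κ - κ * (w.im - T) ^ 2) + (2 * |w.im| + (2 * |w.im| + |w.im|)) := by ring
        rw [h5, Real.exp_add (κ - κ * (w.im - T) ^ 2), Real.exp_add (2 * |w.im|) (2 * |w.im| + |w.im|),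
          Real.exp_add (2 * |w.im|) |w.im|]
        ring
    _ ≤ Real.exp (κ + (5 * |T| + 25 / (4 * κ))) * (C ^ 2 * C' * 5832) := by
        refine mul_le_mul_of_nonneg_right (Real.exp_le_exp.2 ?_) (by positivity)
        have h6 := SZ2I1_exp (t := w.im) (T := T) hκ0
        linarith

/-- the pole killer is bounded below on the critical line -/
theorem kill_lb (t : ℝ) : 1 ≤ 257 * (1 - Real.exp (-((t ^ 2 + 1 / 4) ^ 4))) := by
  have h1 : (1 / 4 : ℝ) ≤ t ^ 2 + 1 / 4 := by nlinarith [sq_nonneg t]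
  have h2 : (1 / 256 : ℝ) ≤ (t ^ 2 + 1 / 4) ^ 4 := by
    calc (1 / 256 : ℝ) = (1 / 4) ^ 4 := by norm_num
      _ ≤ _ := pow_le_pow_left₀ (by norm_num) h1 4
  have h3 : Real.exp (-((t ^ 2 + 1 / 4) ^ 4)) ≤ Real.exp (-(1 / 256)) := Real.exp_le_exp.2 (by linarith)
  have h4 : Real.exp (-(1 / 256)) ≤ 256 / 257 := by
    rw [Real.exp_neg, inv_le_comm₀ (Real.exp_pos _) (by norm_num)]
    have h5 := Real.add_one_le_exp (1 / 256)
    linarith
  linarith

/-- the square of `fz` on the critical line -/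
theorem fz_line (t : ℝ) : ‖fz P T (ln 0 t)‖ ^ 2 ≤ 257 * (hz P T (ln 0 t)).re := by
  have e0 : ln 0 t = t * I := by
    unfold ln
    rw [Complex.ofReal_zero, zero_add]
  have hg := gf_norm T (ln 0 t)
  rw [e0, hz_line, Complex.ofReal_re]
  rw [e0] at hg
  have hre : ((t : ℂ) * I).re = 0 := by simp
  have him : ((t : ℂ) * I).im = t := by simp
  rw [hre, him] at hg
  have hs : ((1 : ℂ) / 2 + t * I) ≠ 1 := by
    intro h
    have := congrArg Complex.re h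
    norm_num at this
  have hq : ‖Complex.exp (((t : ℂ) * I - T * Complex.I) ^ 2 * (Real.log T : ℂ) / (2 * (T : ℂ) ^ 2))‖ ^ 2 =
      Pool.Agent.H26.SZ.Gw T t := by
    rw [hg, ← Real.exp_nat_mul]
    unfold Pool.Agent.H26.SZ.Gw
    congr 1
    push_cast
    by_cases hT0 : T = 0
    · subst hT0
      simp
    · field_simp
      ring
  have hn1 : ‖(1 / 2 + (t : ℂ) * I) - 1‖ ≤ ‖(3 / 2 : ℂ) + t * I‖ := by
    rw [← sq_le_sq₀ (norm_nonneg _) (norm_nonneg _), ← Complex.normSq_eq_norm_sq, ← Complex.normSq_eq_norm_sq,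
      Complex.normSq_apply, Complex.normSq_apply]
    have a1 : ((1 / 2 + (t : ℂ) * I) - 1).re = -(1 / 2) := by norm_num
    have a2 : ((1 / 2 + (t : ℂ) * I) - 1).im = t := by norm_num
    have a3 : ((3 / 2 : ℂ) + t * I).re = 3 / 2 := by norm_num
    have a4 : ((3 / 2 : ℂ) + t * I).im = t := by norm_num
    rw [a1, a2, a3, a4]
    nlinarith
  have hpos : 0 < ‖(3 / 2 : ℂ) + t * I‖ := by
    rw [norm_pos_iff]
    intro h
    have := congrArg Complex.re h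
    norm_num at this
  have hfz : ‖fz P T ((t : ℂ) * I)‖ ≤ ‖ZM P T (1 / 2 + t * I)‖ *
      ‖Complex.exp (((t : ℂ) * I - T * Complex.I) ^ 2 * (Real.log T : ℂ) / (2 * (T : ℂ) ^ 2))‖ := by
    unfold fz
    rw [norm_mul]
    refine mul_le_mul_of_nonneg_right ?_ (norm_nonneg _)
    rw [Z_of_ne hs]
    unfold ZM
    rw [norm_mul, norm_mul, norm_div, norm_mul]
    refine mul_le_mul_of_nonneg_right ?_ (norm_nonneg _)
    rw [div_le_iff₀ hpos, mul_comm]
    exact mul_le_mul_of_nonneg_left hn1 (norm_nonneg _)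
  have hk := kill_lb t
  have hG := (Pool.Agent.H26.SZ.Gw_pos T t).le
  calc ‖fz P T ((t : ℂ) * I)‖ ^ 2 ≤ (‖ZM P T (1 / 2 + t * I)‖ *
      ‖Complex.exp (((t : ℂ) * I - T * Complex.I) ^ 2 * (Real.log T : ℂ) / (2 * (T : ℂ) ^ 2))‖) ^ 2 :=
        pow_le_pow_left₀ (norm_nonneg _) hfz 2
    _ = (Pool.Agent.H26.SZ.Gw T t * ‖ZM P T (1 / 2 + t * I)‖ ^ 2) * 1 := by
        rw [mul_pow, hq]
        ring
    _ ≤ (Pool.Agent.H26.SZ.Gw T t * ‖ZM P T (1 / 2 + t * I)‖ ^ 2) *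
          (257 * (1 - Real.exp (-((t ^ 2 + 1 / 4) ^ 4)))) := mul_le_mul_of_nonneg_left hk (by positivity)
    _ = _ := by ring

/-- the mean square on the critical line is bounded by the integral of `hz` on the line `Re s = aT T` -/
theorem J2_le (hT : 2 ≤ Real.log T) (hT1 : 1 < T) :
    J2 (fz P T) 0 ≤ 257 * ‖∫ t : ℝ, hz P T (ln (bT T) t)‖ := by
  obtain ⟨K, hK⟩ := hz_SD (P := P) hT1
  obtain ⟨hb1, hb2⟩ := bT_bounds hT
  have hi : Integrable (fun t : ℝ => hz P T (ln 0 t)) := hK.integrable (by norm_num) (by norm_num) (by norm_num)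
  have hshift : ∫ t : ℝ, hz P T (ln 0 t) = ∫ t : ℝ, hz P T (ln (bT T) t) :=
    (hK.sub (by norm_num) hb2).shift (by norm_num) (by linarith)
  have e1 : (∫ t : ℝ, hz P T (ln 0 t)).re = ∫ t : ℝ, (hz P T (ln 0 t)).re :=
    (Complex.reCLM.integral_comp_comm hi).symm
  have h1 : J2 (fz P T) 0 ≤ ∫ t : ℝ, 257 * (hz P T (ln 0 t)).re := by
    unfold J2
    refine integral_mono_of_nonneg (Filter.Eventually.of_forall fun t => by positivity) (hi.re.const_mul 257)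
      (Filter.Eventually.of_forall fun t => fz_line t)
  rw [integral_const_mul, ← e1, hshift] at h1
  exact h1.trans (mul_le_mul_of_nonneg_left (Complex.re_le_norm _) (by norm_num))

end Pool.Agent.H53.SZ2
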