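import Mathlib
import Pool.Agent.H53.SZ2.I1a

/-!
# MP_103a5c SimpleZeros v2, block I1: the mean square of `fz` on the critical line is `≤ C |MZ| + C T^(3/4)`
-/

set_option autoImplicit false

open Complex MeasureTheory Filter Topology Set

namespace Pool.Agent.H53.SZ2

open H82SZ Pool.Agent.H17.ZB Pool.Agent.H53.SZC

variable {ε : ℝ} {P : ℝ → ℝ}

/-- the trivial bound of the Dirichlet polynomial `M(s)`, `Re s ≥ -1/L` -/
theorem dpol_triv (hP : Adm (1 / 2 - ε) P) : ∃ C : ℝ, 0 ≤ C ∧ ∀ T : ℝ, Real.exp 1 ≤ T → ∀ s : ℂ,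
    -(1 / Real.log T) ≤ s.re → ‖dpol T (xk P T) s‖ ≤ C * T ^ (1 / 2 - ε) := by
  obtain ⟨C0, hC0'⟩ := hP.cpt.exists_bound_of_continuous hP.smooth.continuous
  have hC0 : 0 ≤ C0 := (norm_nonneg _).trans (hC0' 0)
  refine ⟨C0 * Real.exp 1, by positivity, fun T hT s hs => ?_⟩
  have hT0 : 0 < T := lt_of_lt_of_le (Real.exp_pos 1) hT
  have hL : 1 ≤ Real.log T := by rw [Real.le_log_iff_exp_le hT0]; exact hT
  have hL0 : 0 < Real.log T := by linarith
  obtain ⟨M, hM⟩ : ∃ M : ℝ, M = T ^ (1 / 2 - ε) := ⟨_, rfl⟩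
  have hM0 : 0 ≤ M := by rw [hM]; exact Real.rpow_nonneg hT0.le _
  rw [← hM]
  unfold dpol
  have h1 : ∀ n ∈ Finset.Icc 1 (NT T), ‖(xk P T n : ℂ) * (n : ℂ) ^ (-s)‖ ≤
      if (n : ℝ) ≤ M then C0 * Real.exp 1 else 0 := by
    intro n hn
    rw [Finset.mem_Icc] at hn
    have hn1 : (1 : ℝ) ≤ n := by exact_mod_cast hn.1
    have hnT : (n : ℝ) ≤ T := (Nat.cast_le.mpr hn.2).trans (Nat.floor_le hT0.le)
    have hx : xk P T n = (ArithmeticFunction.moebius n : ℝ) * P (Real.log n / Real.log T) := rfl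
    rw [norm_mul, Complex.norm_real, Real.norm_eq_abs, hx]
    split_ifs with h
    · refine mul_le_mul ?_ ?_ (norm_nonneg _) hC0
      · rw [abs_mul]
        have h2 : |(ArithmeticFunction.moebius n : ℝ)| ≤ 1 := by
          have := ArithmeticFunction.abs_moebius_le_one (n := n)
          rw [← Int.cast_abs]
          exact_mod_cast this
        calc _ ≤ 1 * C0 := mul_le_mul h2 (hC0' _) (abs_nonneg _) zero_le_one
          _ = C0 := one_mul _
      · rw [Complex.norm_natCast_cpow_of_pos hn.1, Complex.neg_re]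
        calc (n : ℝ) ^ (-s.re) ≤ (n : ℝ) ^ (1 / Real.log T) :=
              Real.rpow_le_rpow_of_exponent_le hn1 (by linarith)
          _ ≤ T ^ (1 / Real.log T) := Real.rpow_le_rpow (by linarith) hnT (by positivity)
          _ = Real.exp 1 := by
              rw [Real.rpow_def_of_pos hT0]
              congr 1
              field_simp
    · have h3 : 1 / 2 - ε ≤ Real.log n / Real.log T := by
        by_contra h4
        push Not at h4
        apply h
        rw [div_lt_iff₀ hL0] at h4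
        rw [hM, Real.rpow_def_of_pos hT0, ← Real.log_le_iff_le_exp (by linarith)]
        linarith
      rw [hP.zero _ h3, mul_zero, abs_zero, zero_mul]
  refine (norm_sum_le _ _).trans ((Finset.sum_le_sum h1).trans ?_)
  rw [← Finset.sum_filter, Finset.sum_const, nsmul_eq_mul]
  have h2 : (Finset.filter (fun n : ℕ => (n : ℝ) ≤ M) (Finset.Icc 1 (NT T))) ⊆ Finset.Icc 1 ⌊M⌋₊ := by
    intro n hn
    rw [Finset.mem_filter, Finset.mem_Icc] at hn
    rw [Finset.mem_Icc]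
    exact ⟨hn.1.1, Nat.le_floor hn.2⟩
  have h3 := Finset.card_le_card h2
  rw [Nat.card_Icc, Nat.add_sub_cancel] at h3
  have h4 : ((Finset.card (Finset.filter (fun n : ℕ => (n : ℝ) ≤ M) (Finset.Icc 1 (NT T))) : ℕ) : ℝ) ≤ M :=
    (Nat.cast_le.mpr h3).trans (Nat.floor_le hM0)
  calc _ ≤ M * (C0 * Real.exp 1) := mul_le_mul_of_nonneg_right h4 (by positivity)
    _ = _ := by ring

private theorem SZ2I1_re (T t : ℝ) : ((aT T : ℂ) + t * I).re = aT T := by simp

private theorem SZ2I1_im (T t : ℝ) : ((aT T : ℂ) + t * I).im = t := by simp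

/-- the product of `ζ` on the two lines -/
theorem zz_prod : ∃ C : ℝ, 0 ≤ C ∧ ∀ T : ℝ, Real.exp 2 ≤ T → ∀ t : ℝ,
    ‖riemannZeta (aT T + t * I)‖ * ‖riemannZeta (1 - (aT T + t * I))‖ ≤
      C * Real.log T * Real.exp (3 * |t|) := by
  obtain ⟨C1, hC1, h1⟩ := Z_poly
  obtain ⟨C2, hC2, h2⟩ := Z_exp
  refine ⟨4 * C1 * C2, by positivity, fun T hT t => ?_⟩
  have hT0 : 0 < T := lt_of_lt_of_le (Real.exp_pos 2) hT
  have hL : 2 ≤ Real.log T := by rw [Real.le_log_iff_exp_le hT0]; exact hT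
  have hL0 : 0 < Real.log T := by linarith
  have hLi : 0 < 1 / Real.log T := by positivity
  have hLi2 : 1 / Real.log T ≤ 1 / 2 := one_div_le_one_div_of_le (by norm_num) hL
  have ha : aT T = 1 + 1 / Real.log T := rfl
  obtain ⟨s, hs⟩ : ∃ s : ℂ, s = (aT T : ℂ) + t * I := ⟨_, rfl⟩
  have hsre : s.re = aT T := by rw [hs, SZ2I1_re]
  have hsim : s.im = t := by rw [hs, SZ2I1_im]
  rw [← hs]
  have hs1 : s ≠ 1 := by
    intro h
    rw [h, Complex.one_re, ha] at hsre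
    linarith
  have hre' : (1 - s).re = -(1 / Real.log T) := by
    rw [Complex.sub_re, Complex.one_re, hsre, ha]
    ring
  have him' : (1 - s).im = -t := by
    rw [Complex.sub_im, Complex.one_im, hsim]
    ring
  have hs2 : 1 - s ≠ 1 := by
    intro h
    rw [h, Complex.one_re] at hre'
    linarith
  have e1 : ‖riemannZeta s‖ ≤ Real.log T * (C1 * (1 + |t|) ^ 2) := by
    have h3 := h1 s (by rw [hsre, ha]; linarith) (by rw [hsre, ha]; linarith)
    rw [hsim, Z_of_ne hs1, norm_mul] at h3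
    have h4 : 1 / Real.log T ≤ ‖s - 1‖ := by
      have h5 := Complex.re_le_norm (s - 1)
      rw [Complex.sub_re, hsre, Complex.one_re, ha] at h5
      linarith
    have h6 : 1 / Real.log T * ‖riemannZeta s‖ ≤ C1 * (1 + |t|) ^ 2 :=
      (mul_le_mul_of_nonneg_right h4 (norm_nonneg _)).trans h3
    calc ‖riemannZeta s‖ = Real.log T * (1 / Real.log T * ‖riemannZeta s‖) := by field_simp
      _ ≤ _ := mul_le_mul_of_nonneg_left h6 hL0.le
  have e2 : ‖riemannZeta (1 - s)‖ ≤ C2 * Real.exp (2 * |t|) := by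
    have h3 := h2 (1 - s) (by rw [hre']; linarith) (by rw [hre']; linarith)
    rw [him', abs_neg, Z_of_ne hs2, norm_mul] at h3
    have h4 : 1 ≤ ‖(1 - s) - 1‖ := by
      have h5 := Complex.abs_re_le_norm ((1 - s) - 1)
      rw [Complex.sub_re, hre', Complex.one_re, abs_of_neg (by linarith)] at h5
      linarith
    calc ‖riemannZeta (1 - s)‖ = 1 * ‖riemannZeta (1 - s)‖ := (one_mul _).symm
      _ ≤ _ := mul_le_mul_of_nonneg_right h4 (norm_nonneg _)
      _ ≤ _ := h3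
  have e3 : (1 + |t|) ^ 2 ≤ 4 * Real.exp |t| := by
    have h3 := Real.add_one_le_exp (|t| / 2)
    have h4 : 1 + |t| ≤ 2 * Real.exp (|t| / 2) := by linarith
    have h5 : (1 + |t|) ^ 2 ≤ (2 * Real.exp (|t| / 2)) ^ 2 := pow_le_pow_left₀ (by positivity) h4 2
    have h6 : (2 * Real.exp (|t| / 2)) ^ 2 = 4 * Real.exp |t| := by
      rw [mul_pow, ← Real.exp_nat_mul]
      norm_num
      ring_nf
    rwa [h6] at h5
  have e4 : Real.exp (3 * |t|) = Real.exp |t| * Real.exp (2 * |t|) := by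
    rw [← Real.exp_add]
    ring_nf
  calc ‖riemannZeta s‖ * ‖riemannZeta (1 - s)‖ ≤
        (Real.log T * (C1 * (1 + |t|) ^ 2)) * (C2 * Real.exp (2 * |t|)) :=
        mul_le_mul e1 e2 (norm_nonneg _) (by positivity)
    _ ≤ (Real.log T * (C1 * (4 * Real.exp |t|))) * (C2 * Real.exp (2 * |t|)) := by
        gcongr
    _ = _ := by rw [e4]; ring

private theorem SZ2I1_diff (hP : Adm (1 / 2 - ε) P) :
    ∃ C T0 : ℝ, 0 ≤ C ∧ ∀ T, T0 ≤ T → ∀ t : ℝ,
      ‖hz P T (ln (bT T) t) - Gs T (aT T + t * I) * ZM P T (aT T + t * I) *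
        ZM P T (1 - (aT T + t * I))‖ ≤
        C * Real.log T * T ^ (3 / 4 - 2 * ε) * Real.exp (-(t ^ 2)) := by
  obtain ⟨C1, T1, hC1, h1⟩ := real_ineq
  obtain ⟨C2, hC2, h2⟩ := dpol_triv hP
  obtain ⟨C3, hC3, h3⟩ := zz_prod
  obtain ⟨C4, hC4, h4⟩ := Ee_bd
  refine ⟨Real.exp 1 * C4 * C3 * C2 ^ 2 * C1, max T1 (Real.exp 2),
    by positivity, fun T hT t => ?_⟩
  have hT1 : T1 ≤ T := (le_max_left _ _).trans hT
  have hTe : Real.exp 2 ≤ T := (le_max_right _ _).trans hT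
  have hT0 : 0 < T := (Real.exp_pos 2).trans_le hTe
  have hL : 2 ≤ Real.log T := (Real.le_log_iff_exp_le hT0).2 hTe
  have hTe1 : Real.exp 1 ≤ T := (Real.exp_le_exp.2 (by norm_num)).trans hTe
  have hTge : 1 ≤ T := by
    have := Real.add_one_le_exp 2
    linarith
  have hLi : 0 < 1 / Real.log T := by positivity
  obtain ⟨hb1, hb2⟩ := bT_bounds hL
  have hw1 : ln (bT T) t ≠ 1 / 2 := by
    intro h
    have h5 := congrArg Complex.re h
    rw [ln_re] at h5
    norm_num at h5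
    linarith
  have hw2 : ln (bT T) t ≠ -(1 / 2) := by
    intro h
    have h5 := congrArg Complex.re h
    rw [ln_re] at h5
    norm_num at h5
    linarith
  have hEq := hz_eq (P := P) (T := T) hw1 hw2
  rw [half_add_ln, half_sub_ln] at hEq
  obtain ⟨F1, hF1⟩ : ∃ F1 : ℂ, F1 = ZM P T (aT T + t * I) := ⟨_, rfl⟩
  obtain ⟨F2, hF2⟩ : ∃ F2 : ℂ, F2 = ZM P T (1 - (aT T + t * I)) := ⟨_, rfl⟩
  obtain ⟨G, hG⟩ : ∃ G : ℂ, G = Gs T (aT T + t * I) := ⟨_, rfl⟩
  obtain ⟨E, hE⟩ : ∃ E : ℂ, E = Complex.exp (-(zz (ln (bT T) t) ^ 4)) := ⟨_, rfl⟩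
  have hEe : Ee (ln (bT T) t) = 1 - E := by rw [hE]; rfl
  rw [hEq, hEe, ← hF1, ← hF2, ← hG]
  have hid : G * (1 - E) * (F1 * F2) - G * F1 * F2 = -(G * E * (F1 * F2)) := by ring
  rw [hid, norm_neg, norm_mul, norm_mul, norm_mul]
  have gE : ‖E‖ ≤ C4 * Real.exp (-(t ^ 4)) := by
    have h5 := h4 (ln (bT T) t) (by
      rw [ln_re, abs_of_pos (by linarith)]
      exact hb2)
    rw [ln_im, ← hE] at h5
    exact h5
  obtain ⟨M, hM⟩ : ∃ M : ℝ, M = T ^ (1 / 2 - ε) := ⟨_, rfl⟩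
  have hM0 : 0 ≤ M := by rw [hM]; exact Real.rpow_nonneg hT0.le _
  have gF : ‖F1‖ * ‖F2‖ ≤ (C3 * Real.log T * Real.exp (3 * |t|)) * ((C2 * M) * (C2 * M)) := by
    have d1 := h2 T hTe1 (aT T + t * I) (by
      rw [SZ2I1_re]
      unfold aT
      linarith)
    have d2 := h2 T hTe1 (1 - (aT T + t * I)) (by
      rw [Complex.sub_re, SZ2I1_re, Complex.one_re]
      unfold aT
      linarith)
    rw [← hM] at d1 d2
    have d3 := h3 T hTe t
    rw [hF1, hF2]
    unfold ZM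
    rw [norm_mul, norm_mul]
    calc ‖riemannZeta (aT T + t * I)‖ * ‖dpol T (xk P T) (aT T + t * I)‖ *
          (‖riemannZeta (1 - (aT T + t * I))‖ * ‖dpol T (xk P T) (1 - (aT T + t * I))‖)
        = (‖riemannZeta (aT T + t * I)‖ * ‖riemannZeta (1 - (aT T + t * I))‖) *
          (‖dpol T (xk P T) (aT T + t * I)‖ * ‖dpol T (xk P T) (1 - (aT T + t * I))‖) := by ring
      _ ≤ _ := mul_le_mul d3 (mul_le_mul d1 d2 (norm_nonneg _) (by positivity)) (by positivity) (by positivity)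
  have gG : ‖G‖ ≤ Real.exp 1 * Real.exp (-((t - T) ^ 2 * Real.log T / T ^ 2)) := by
    rw [hG, ← half_add_ln, Gs_norm, ln_re, ln_im, ← Real.exp_add]
    apply Real.exp_le_exp.2
    have h5 : Real.log T ≤ T ^ 2 := by
      have := Real.log_le_self hT0.le
      nlinarith
    have h6 : Real.log T / T ^ 2 ≤ 1 := (div_le_one (by positivity)).2 h5
    have h7 : 0 ≤ Real.log T / T ^ 2 := by positivity
    have h8 : bT T ^ 2 ≤ 1 := by nlinarith
    have h9 : bT T ^ 2 * (Real.log T / T ^ 2) ≤ 1 * 1 := mul_le_mul h8 h6 h7 (by norm_num)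
    have h10 : (bT T ^ 2 - (t - T) ^ 2) * Real.log T / T ^ 2 =
        bT T ^ 2 * (Real.log T / T ^ 2) - (t - T) ^ 2 * Real.log T / T ^ 2 := by ring
    rw [h10]
    linarith
  have hre := h1 T hT1 t
  obtain ⟨g, hg⟩ : ∃ g : ℝ, g = Real.exp (-((t - T) ^ 2 * Real.log T / T ^ 2)) := ⟨_, rfl⟩
  rw [← hg] at hre gG
  have hg0 : 0 ≤ g := by rw [hg]; exact (Real.exp_pos _).le
  have hadd : M * M * T ^ (-(1 / 4) : ℝ) = T ^ (3 / 4 - 2 * ε) := by
    rw [hM, ← Real.rpow_add hT0, ← Real.rpow_add hT0]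
    congr 1
    ring
  have m1 : ‖G‖ * ‖E‖ ≤ (Real.exp 1 * g) * (C4 * Real.exp (-(t ^ 4))) :=
    mul_le_mul gG gE (norm_nonneg _) (by positivity)
  have m3 := mul_le_mul m1 gF (by positivity) (by positivity)
  refine m3.trans ?_
  calc (Real.exp 1 * g) * (C4 * Real.exp (-(t ^ 4))) *
        ((C3 * Real.log T * Real.exp (3 * |t|)) * ((C2 * M) * (C2 * M)))
      = (Real.exp 1 * C4 * C3 * C2 ^ 2 * Real.log T * (M * M)) *
        (g * Real.exp (3 * |t|) * Real.exp (-(t ^ 4))) := by ring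
    _ ≤ (Real.exp 1 * C4 * C3 * C2 ^ 2 * Real.log T * (M * M)) *
        (C1 * T ^ (-(1 / 4) : ℝ) * Real.exp (-(t ^ 2))) := by
        apply mul_le_mul_of_nonneg_left hre
        positivity
    _ = Real.exp 1 * C4 * C3 * C2 ^ 2 * C1 * Real.log T * (M * M * T ^ (-(1 / 4) : ℝ)) *
        Real.exp (-(t ^ 2)) := by ring
    _ = Real.exp 1 * C4 * C3 * C2 ^ 2 * C1 * Real.log T * T ^ (3 / 4 - 2 * ε) *
        Real.exp (-(t ^ 2)) := by rw [hadd]

private theorem SZ2I1_contZ (P : ℝ → ℝ) {T : ℝ} {u : ℝ → ℂ} (hu : Continuous u)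
    (h1 : ∀ t, u t ≠ 1) : Continuous fun t : ℝ => ZM P T (u t) := by
  have h2 : (fun t : ℝ => ZM P T (u t)) = fun t => Am P T (u t) / (u t - 1) := by
    funext t
    have h3 : u t - 1 ≠ 0 := sub_ne_zero.2 (h1 t)
    rw [Am_eq (h1 t), mul_div_cancel_left₀ _ h3]
  rw [h2]
  have h4 : Continuous fun t : ℝ => Am P T (u t) := Am_differentiable.continuous.comp hu
  exact h4.div (hu.sub continuous_const) fun t => sub_ne_zero.2 (h1 t)

private theorem SZ2I1_cont (P : ℝ → ℝ) {T : ℝ} (hT : 2 ≤ Real.log T) :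
    Continuous fun t : ℝ => Gs T (aT T + t * I) * ZM P T (aT T + t * I) *
      ZM P T (1 - (aT T + t * I)) := by
  have hL : 0 < 1 / Real.log T := by positivity
  have hG : Continuous fun t : ℝ => Gs T (aT T + t * I) := by
    unfold Gs
    fun_prop
  have hu : Continuous fun t : ℝ => ((aT T : ℂ) + t * I) := by fun_prop
  refine (hG.mul (SZ2I1_contZ P hu fun t h => ?_)).mul
    (SZ2I1_contZ P (continuous_const.sub hu) fun t h => ?_)
  · have h5 := congrArg Complex.re h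
    have h6 : ((aT T : ℂ) + t * I).re = 1 + 1 / Real.log T := by simp [aT]
    rw [h6, Complex.one_re] at h5
    linarith
  · have h5 := congrArg Complex.re h
    simp [aT] at h5
    have h6 : 0 < (Real.log T)⁻¹ := by positivity
    linarith

/-- **I1** -/
theorem i1 : I1stat := by
  intro ε P hε hε2 hP
  obtain ⟨C, T0, hC, hd⟩ := SZ2I1_diff hP
  obtain ⟨J, hJ⟩ : ∃ J : ℝ, J = ∫ t : ℝ, Real.exp (-(t ^ 2)) := ⟨_, rfl⟩
  have hJ0 : 0 ≤ J := by
    rw [hJ]
    exact integral_nonneg fun t => (Real.exp_pos _).le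
  have hgi : Integrable fun t : ℝ => Real.exp (-(t ^ 2)) := by
    have h1 := integrable_exp_neg_mul_sq (b := 1) one_pos
    refine h1.congr (Filter.Eventually.of_forall fun t => ?_)
    show Real.exp (-1 * t ^ 2) = Real.exp (-(t ^ 2))
    rw [neg_one_mul]
  refine ⟨max (257 * (2 * Real.pi)) (257 * (C * J / (2 * ε))), max T0 (Real.exp 2), by positivity, fun T hT => ?_⟩
  have hTe : Real.exp 2 ≤ T := (le_max_right _ _).trans hT
  have hTp : 0 < T := (Real.exp_pos 2).trans_le hTe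
  have hL : 2 ≤ Real.log T := (Real.le_log_iff_exp_le hTp).2 hTe
  have hT1 : 1 < T := by
    have := Real.add_one_le_exp 2
    linarith
  obtain ⟨hb1, hb2⟩ := bT_bounds hL
  obtain ⟨K, hK⟩ := hz_SD (P := P) hT1
  have hi : Integrable (fun t : ℝ => hz P T (ln (bT T) t)) := hK.integrable (by norm_num) (by linarith) hb2
  have hc : Continuous (fun t : ℝ => hz P T (ln (bT T) t)) := hK.continuous (by linarith) hb2
  have hb := hd T ((le_max_left _ _).trans hT)
  obtain ⟨B, hB⟩ : ∃ B : ℝ, B = C * Real.log T * T ^ (3 / 4 - 2 * ε) := ⟨_, rfl⟩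
  rw [← hB] at hb
  have hB0 : 0 ≤ B := by
    rw [hB]
    have := Real.rpow_nonneg hTp.le (3 / 4 - 2 * ε)
    positivity
  have hGc := SZ2I1_cont P hL (T := T)
  have hdi : Integrable (fun t : ℝ => hz P T (ln (bT T) t) - Gs T (aT T + t * I) * ZM P T (aT T + t * I) *
        ZM P T (1 - (aT T + t * I))) :=
    (hgi.const_mul B).mono' (hc.sub hGc).aestronglyMeasurable (Filter.Eventually.of_forall hb)
  have hGi : Integrable (fun t : ℝ => Gs T (aT T + t * I) * ZM P T (aT T + t * I) *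
        ZM P T (1 - (aT T + t * I))) := by
    refine (hi.sub hdi).congr (Filter.Eventually.of_forall fun t => ?_)
    simp only [Pi.sub_apply]
    ring
  have h1 : ‖(∫ t : ℝ, hz P T (ln (bT T) t)) - ∫ t : ℝ, Gs T (aT T + t * I) * ZM P T (aT T + t * I) *
        ZM P T (1 - (aT T + t * I))‖ ≤ B * J := by
    rw [← integral_sub hi hGi, hJ, ← integral_const_mul]
    exact norm_integral_le_of_norm_le (hgi.const_mul B) (Filter.Eventually.of_forall hb)
  have hMZ : ∫ t : ℝ, Gs T (aT T + t * I) * ZM P T (aT T + t * I) * ZM P T (1 - (aT T + t * I)) =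
      2 * Real.pi * MZ P T := by
    unfold MZ
    have hπ : (2 * Real.pi : ℂ) ≠ 0 := by
      have := Real.pi_ne_zero
      simp [this]
    rw [← mul_assoc, mul_inv_cancel₀ hπ, one_mul]
  rw [hMZ] at h1
  have h2 : ‖∫ t : ℝ, hz P T (ln (bT T) t)‖ ≤ 2 * Real.pi * ‖MZ P T‖ + B * J := by
    have h3 := norm_le_norm_add_norm_sub' (∫ t : ℝ, hz P T (ln (bT T) t)) (2 * Real.pi * MZ P T)
    have h4 : ‖(2 * Real.pi : ℂ) * MZ P T‖ = 2 * Real.pi * ‖MZ P T‖ := by
      rw [norm_mul, norm_mul, Complex.norm_ofNat, Complex.norm_real, Real.norm_eq_abs, abs_of_pos Real.pi_pos]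
    rw [h4] at h3
    linarith
  have h5 : B ≤ C / (2 * ε) * T ^ (3 / 4 : ℝ) := by
    have h6 : Real.log T ≤ T ^ (2 * ε) / (2 * ε) := Real.log_le_rpow_div hTp.le (by positivity)
    have h7 : 0 ≤ T ^ (3 / 4 - 2 * ε) := Real.rpow_nonneg hTp.le _
    calc B = C * Real.log T * T ^ (3 / 4 - 2 * ε) := hB
      _ ≤ C * (T ^ (2 * ε) / (2 * ε)) * T ^ (3 / 4 - 2 * ε) := by gcongr
      _ = C / (2 * ε) * (T ^ (2 * ε) * T ^ (3 / 4 - 2 * ε)) := by ring
      _ = C / (2 * ε) * T ^ (3 / 4 : ℝ) := by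
          rw [← Real.rpow_add hTp]
          congr 2
          ring
  have h8 := J2_le (P := P) hL hT1
  have hX : 0 ≤ T ^ (3 / 4 : ℝ) := Real.rpow_nonneg hTp.le _
  calc J2 (fz P T) 0 ≤ 257 * ‖∫ t : ℝ, hz P T (ln (bT T) t)‖ := h8
    _ ≤ 257 * (2 * Real.pi * ‖MZ P T‖ + (C / (2 * ε) * T ^ (3 / 4 : ℝ)) * J) := by
        have := mul_le_mul_of_nonneg_right h5 hJ0
        linarith
    _ = (257 * (2 * Real.pi)) * ‖MZ P T‖ + (257 * (C * J / (2 * ε))) * T ^ (3 / 4 : ℝ) := by ring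
    _ ≤ max (257 * (2 * Real.pi)) (257 * (C * J / (2 * ε))) * ‖MZ P T‖ +
        max (257 * (2 * Real.pi)) (257 * (C * J / (2 * ε))) * T ^ (3 / 4 : ℝ) :=
        add_le_add (mul_le_mul_of_nonneg_right (le_max_left _ _) (norm_nonneg _))
          (mul_le_mul_of_nonneg_right (le_max_right _ _) hX)

end Pool.Agent.H53.SZ2
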