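import Mathlib
import Pool.Agent.H53.SZC.Rs

/-!
# MP_103a5c SimpleZeros v2, block JF1: the second derivative on the imaginary axis as a difference of two Cauchy integrals
-/

set_option autoImplicit false

open Complex MeasureTheory Filter Topology Set

namespace Pool.Agent.H53.SZ2

open Pool.Agent.H53.SZC

theorem ln_sub_norm (x t g : ℝ) : |x| ≤ ‖ln x t - g * I‖ := by
  have h1 : (ln x t - g * I).re = x := by simp
  have h2 := Complex.abs_re_le_norm (ln x t - g * I)
  rwa [h1] at h2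

theorem ln_sub_ne {x : ℝ} (hx : x ≠ 0) (t g : ℝ) : ln x t - g * I ≠ 0 := by
  intro h
  have h1 := ln_sub_norm x t g
  rw [h, norm_zero] at h1
  have h2 := abs_pos.2 hx
  linarith

theorem cau_cont {x : ℝ} (hx : x ≠ 0) (k : ℕ) (g : ℝ) : Continuous fun t : ℝ => ((ln x t - g * I) ^ k)⁻¹ :=
  (((continuous_ln x).sub continuous_const).pow k).inv₀ fun t => pow_ne_zero _ (ln_sub_ne hx t g)

theorem cau_integrable {h : ℝ → ℂ} (hh : Integrable h) {x : ℝ} (hx : x ≠ 0) (k : ℕ) (g : ℝ) :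
    Integrable fun t : ℝ => h t / (ln x t - g * I) ^ k := by
  refine hh.mul_bdd (c := (|x| ^ k)⁻¹) (cau_cont hx k g).aestronglyMeasurable
    (Eventually.of_forall fun t => ?_)
  rw [norm_inv, norm_pow]
  exact inv_anti₀ (pow_pos (abs_pos.2 hx) k) (pow_le_pow_left₀ (abs_nonneg _) (ln_sub_norm x t g) k)

theorem cau_hasDerivAt {h : ℝ → ℂ} (hh : Integrable h) {x : ℝ} (hx : x ≠ 0) (k : ℕ) (g : ℝ) :
    HasDerivAt (fun g : ℝ => ∫ t : ℝ, h t / (ln x t - g * I) ^ k)
      (k * I * ∫ t : ℝ, h t / (ln x t - g * I) ^ (k + 1)) g := by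
  rw [← integral_const_mul]
  refine (hasDerivAt_integral_of_dominated_loc_of_deriv_le
    (F := fun (g : ℝ) (t : ℝ) => h t / (ln x t - g * I) ^ k)
    (F' := fun (g : ℝ) (t : ℝ) => (k : ℂ) * I * (h t / (ln x t - g * I) ^ (k + 1)))
    (bound := fun t : ℝ => (k : ℝ) * (|x| ^ (k + 1))⁻¹ * ‖h t‖)
    (s := Set.univ) Filter.univ_mem ?_ (cau_integrable hh hx k g) ?_ ?_ ?_ ?_).2
  · exact Eventually.of_forall fun g => (cau_integrable hh hx k g).aestronglyMeasurable
  · exact ((cau_integrable hh hx (k + 1) g).const_mul _).aestronglyMeasurable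
  · refine Eventually.of_forall fun t g _ => ?_
    rw [norm_mul, norm_mul, norm_div, norm_pow, Complex.norm_I, mul_one, Complex.norm_natCast, mul_assoc]
    refine mul_le_mul_of_nonneg_left ?_ (Nat.cast_nonneg _)
    rw [div_eq_mul_inv, mul_comm]
    refine mul_le_mul_of_nonneg_right ?_ (norm_nonneg _)
    exact inv_anti₀ (pow_pos (abs_pos.2 hx) _) (pow_le_pow_left₀ (abs_nonneg _) (ln_sub_norm x t g) _)
  · exact hh.norm.const_mul _
  · refine Eventually.of_forall fun t g _ => ?_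
    have h1 : HasDerivAt (fun g : ℝ => ln x t - (g : ℂ) * I) (-I) g := by
      have h2 : HasDerivAt (fun g : ℝ => (g : ℂ) * I) (1 * I) g := (Complex.ofRealCLM.hasDerivAt).mul_const I
      have h3 := h2.const_sub (ln x t)
      rwa [one_mul] at h3
    have hne := ln_sub_ne hx t g
    have h4 := (h1.fun_pow k).fun_inv (pow_ne_zero k hne)
    have h5 := h4.const_mul (h t)
    have h6 : h t * (-((k : ℂ) * (ln x t - (g : ℂ) * I) ^ (k - 1) * -I) / ((ln x t - (g : ℂ) * I) ^ k) ^ 2) =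
        (k : ℂ) * I * (h t / (ln x t - g * I) ^ (k + 1)) := by
      rcases Nat.eq_zero_or_pos k with rfl | hk
      · simp
      · obtain ⟨m, rfl⟩ : ∃ m, k = m + 1 := ⟨k - 1, by omega⟩
        have h7 : m + 1 - 1 = m := by omega
        rw [h7]
        field_simp
        ring
    rw [h6] at h5
    exact h5

/-- the residue theorem, first and second derivative -/
theorem jf1 {n : ℕ} {c K : ℝ} {f : ℂ → ℂ} (hc : 0 < c) (h : SD n (-c) c K f) (hn : 1 ≤ n) (g : ℝ) :
    deriv (deriv f) (ln 0 g) = (Real.pi : ℂ)⁻¹ * ((∫ t : ℝ, f (ln c t) / (ln c t - g * I) ^ 3) -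
      ∫ t : ℝ, f (ln (-c) t) / (ln (-c) t - g * I) ^ 3) := by
  have hcc : -c ≤ c := by linarith
  have i1 : Integrable fun t : ℝ => f (ln c t) := h.integrable hn hcc le_rfl
  have i2 : Integrable fun t : ℝ => f (ln (-c) t) := h.integrable hn le_rfl hcc
  have hc0 : c ≠ 0 := hc.ne'
  have hc1 : -c ≠ 0 := neg_ne_zero.2 hc0
  have hπ : (Real.pi : ℂ) ≠ 0 := by exact_mod_cast Real.pi_ne_zero
  have hopen : IsOpen {z : ℂ | -c < z.re ∧ z.re < c} :=
    (isOpen_lt continuous_const Complex.continuous_re).inter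
      (isOpen_lt Complex.continuous_re continuous_const)
  have hmem : ∀ g : ℝ, {z : ℂ | -c < z.re ∧ z.re < c} ∈ 𝓝 (ln 0 g) := fun g =>
    hopen.mem_nhds ⟨by rw [ln_re]; linarith, by rw [ln_re]; exact hc⟩
  have hd : DifferentiableOn ℂ f {z : ℂ | -c < z.re ∧ z.re < c} := fun z hz =>
    (h.diff z hz.1.le hz.2.le).differentiableWithinAt
  have hd' : DifferentiableOn ℂ (deriv f) {z : ℂ | -c < z.re ∧ z.re < c} := hd.deriv hopen
  have hln : ∀ g : ℝ, HasDerivAt (fun g : ℝ => ln 0 g) I g := by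
    intro g
    have h2 : HasDerivAt (fun g : ℝ => (g : ℂ) * I) (1 * I) g := (Complex.ofRealCLM.hasDerivAt).mul_const I
    have h3 := h2.const_add (((0 : ℝ) : ℂ))
    rw [one_mul] at h3
    exact h3
  have e0 : ∀ g : ℝ, (∫ t : ℝ, f (ln c t) / (ln c t - g * I) ^ 1) -
      (∫ t : ℝ, f (ln (-c) t) / (ln (-c) t - g * I) ^ 1) = 2 * Real.pi * f (ln 0 g) := by
    intro g
    have h1 := res1 hc h hn g
    simp only [pow_one]
    rw [h1]
    congr 2
    unfold ln
    simp
  have e1 : ∀ g : ℝ, (∫ t : ℝ, f (ln c t) / (ln c t - g * I) ^ 2) -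
      (∫ t : ℝ, f (ln (-c) t) / (ln (-c) t - g * I) ^ 2) = 2 * Real.pi * deriv f (ln 0 g) := by
    intro g
    have h1 := (cau_hasDerivAt i1 hc0 1 g).sub (cau_hasDerivAt i2 hc1 1 g)
    have h2 : HasDerivAt f (deriv f (ln 0 g)) (ln 0 g) := (hd.differentiableAt (hmem g)).hasDerivAt
    have h3 := (h2.comp g (hln g)).const_mul (2 * Real.pi : ℂ)
    have h4 := h1.congr_of_eventuallyEq (f₁ := fun y : ℝ => (2 * Real.pi : ℂ) * (f ∘ fun g : ℝ => ln 0 g) y)
      (Eventually.of_forall fun y => (e0 y).symm)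
    have h5 := h3.unique h4
    have h6 : I * (2 * Real.pi * deriv f (ln 0 g)) = I * ((∫ t : ℝ, f (ln c t) / (ln c t - g * I) ^ 2) -
      (∫ t : ℝ, f (ln (-c) t) / (ln (-c) t - g * I) ^ 2)) := by
      norm_num at h5
      linear_combination h5
    exact (mul_left_cancel₀ I_ne_zero h6).symm
  have h1 := (cau_hasDerivAt i1 hc0 2 g).sub (cau_hasDerivAt i2 hc1 2 g)
  have h2 : HasDerivAt (deriv f) (deriv (deriv f) (ln 0 g)) (ln 0 g) :=
    (hd'.differentiableAt (hmem g)).hasDerivAt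
  have h3 := (h2.comp g (hln g)).const_mul (2 * Real.pi : ℂ)
  have h4 := h1.congr_of_eventuallyEq (f₁ := fun y : ℝ => (2 * Real.pi : ℂ) * (deriv f ∘ fun g : ℝ => ln 0 g) y)
    (Eventually.of_forall fun y => (e1 y).symm)
  have h5 := h3.unique h4
  have h6 : (2 * I) * (Real.pi * deriv (deriv f) (ln 0 g)) = (2 * I) * ((∫ t : ℝ, f (ln c t) / (ln c t - g * I) ^ 3) -
      (∫ t : ℝ, f (ln (-c) t) / (ln (-c) t - g * I) ^ 3)) := by
    norm_num at h5
    linear_combination h5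
  have h7 := mul_left_cancel₀ (mul_ne_zero two_ne_zero I_ne_zero) h6
  rw [← h7, ← mul_assoc, inv_mul_cancel₀ hπ, one_mul]

end Pool.Agent.H53.SZ2
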